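import Mathlib
import Pool.Agent.Q76.DoublingScales

/-!
# Two-sided upper conical density for non-atomic measures (MP_acc68d_an)

For every `n` and `0 < α ≤ 1` there is `c > 0` such that for every non-atomic finite Borel measure
`μ` on `ℝⁿ` and `μ`-almost every `x` there is a direction `θ` such that the two opposite one-sided
cones of opening `α` both carry more than a `c`-proportion of `μ (B(x, r))` along some sequence of
radii.
-/

namespace Pool.Agent.Results.MP_acc68d_an.TwoSidedConicalDensity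

open MeasureTheory Filter Topology Set Metric
open scoped ENNReal NNReal

/-- The one-sided cone `X⁺(x, θ, α) = {y : (y - x) · θ > (1 - α²)^{1/2} |y - x|}`. -/
def cone {n : ℕ} (x θ : EuclideanSpace ℝ (Fin n)) (α : ℝ) : Set (EuclideanSpace ℝ (Fin n)) :=
  {y | √(1 - α ^ 2) * ‖y - x‖ < inner ℝ (y - x) θ}

variable {n : ℕ}

lemma mem_cone_neg {x y θ : EuclideanSpace ℝ (Fin n)} {α : ℝ} :
    x ∈ cone y (-θ) α ↔ y ∈ cone x θ α := by
  unfold cone
  simp only [mem_ofPred_eq]
  rw [norm_sub_rev, inner_neg_right, ← inner_neg_left, neg_sub]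

lemma isOpen_graph (θ : EuclideanSpace ℝ (Fin n)) (α : ℝ) :
    IsOpen {p : EuclideanSpace ℝ (Fin n) × EuclideanSpace ℝ (Fin n) | p.2 ∈ cone p.1 θ α} := by
  unfold cone
  simp only [mem_ofPred_eq]
  exact isOpen_lt (continuous_const.mul (continuous_snd.sub continuous_fst).norm)
    ((continuous_snd.sub continuous_fst).inner continuous_const)

/-- A finite set of directions whose cones cover everything. -/
lemma exists_finite_net (n : ℕ) {α : ℝ} (hα : 0 < α) :
    ∃ T : Finset (EuclideanSpace ℝ (Fin n)), (∀ θ ∈ T, ‖θ‖ = 1) ∧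
      ∀ x y : EuclideanSpace ℝ (Fin n), y ≠ x → ∃ θ ∈ T, y ∈ cone x θ α := by
  have hβ : √(1 - α ^ 2) < 1 := by
    rw [Real.sqrt_lt' one_pos]
    nlinarith
  obtain ⟨T, hT, hcov⟩ := (isCompact_sphere (0 : EuclideanSpace ℝ (Fin n)) 1).elim_nhds_subcover
    (fun θ => {v | √(1 - α ^ 2) < inner ℝ v θ}) (by
      intro θ hθ
      rw [mem_sphere_zero_iff_norm] at hθ
      apply IsOpen.mem_nhds
      · exact isOpen_lt continuous_const (continuous_id.inner continuous_const)
      · simp only [mem_ofPred_eq]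
        rw [real_inner_self_eq_norm_sq, hθ]
        simpa using hβ)
  refine ⟨T, fun θ hθ => mem_sphere_zero_iff_norm.mp (hT θ hθ), fun x y hxy => ?_⟩
  have hpos : 0 < ‖y - x‖ := norm_pos_iff.mpr (sub_ne_zero.mpr hxy)
  have hv : ‖y - x‖⁻¹ • (y - x) ∈ sphere (0 : EuclideanSpace ℝ (Fin n)) 1 := by
    rw [mem_sphere_zero_iff_norm, norm_smul, norm_inv, norm_norm, inv_mul_cancel₀ hpos.ne']
  obtain ⟨θ, hθT, hθ⟩ := mem_iUnion₂.mp (hcov hv)
  refine ⟨θ, hθT, ?_⟩
  have hθ' : √(1 - α ^ 2) < inner ℝ (‖y - x‖⁻¹ • (y - x)) θ := hθ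
  rw [real_inner_smul_left, inv_mul_eq_div, lt_div_iff₀ hpos] at hθ'
  exact hθ'

lemma measurable_section (μ : Measure (EuclideanSpace ℝ (Fin n))) [IsFiniteMeasure μ]
    (θ : EuclideanSpace ℝ (Fin n)) (α : ℝ) : Measurable fun x => μ (cone x θ α) :=
  measurable_measure_prodMk_left (isOpen_graph θ α).measurableSet

/-- The diagonal is null for the product of a non-atomic measure with itself. -/
lemma prod_diag (ν : Measure (EuclideanSpace ℝ (Fin n))) [IsFiniteMeasure ν]
    (hν : ∀ x, ν {x} = 0) :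
    (ν.prod ν) {p : EuclideanSpace ℝ (Fin n) × EuclideanSpace ℝ (Fin n) | p.2 = p.1} = 0 := by
  have hm : MeasurableSet {p : EuclideanSpace ℝ (Fin n) × EuclideanSpace ℝ (Fin n) |
    p.2 = p.1} := (isClosed_eq continuous_snd continuous_fst).measurableSet
  rw [Measure.prod_apply hm]
  have h1 : ∀ x : EuclideanSpace ℝ (Fin n), Prod.mk x ⁻¹'
      {p : EuclideanSpace ℝ (Fin n) × EuclideanSpace ℝ (Fin n) | p.2 = p.1} = {x} := by
    intro x
    ext y
    exact Iff.rfl
  simp_rw [h1, hν]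
  exact lintegral_zero

/-- Summing over colours. -/
lemma measure_univ_le (ν : Measure (EuclideanSpace ℝ (Fin n))) [IsFiniteMeasure ν]
    (hν : ∀ x, ν {x} = 0) {α : ℝ} (T : Finset (EuclideanSpace ℝ (Fin n)))
    (hT : ∀ x y : EuclideanSpace ℝ (Fin n), y ≠ x → ∃ θ ∈ T, y ∈ cone x θ α) (ε : ℝ≥0∞)
    (hW : ∀ θ ∈ T, (ν.prod ν) {p | p.2 ∈ cone p.1 θ α} ≤ ε * ν univ) :
    ν univ ≤ T.card * ε := by
  rcases eq_or_ne (ν univ) 0 with h0 | h0
  · rw [h0]; exact zero_le
  have hall : ν univ * ν univ ≤ T.card * (ε * ν univ) := by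
    calc ν univ * ν univ = (ν.prod ν) univ := by
          rw [← univ_prod_univ, Measure.prod_prod]
      _ ≤ (ν.prod ν) ({p | p.2 = p.1} ∪ ⋃ θ ∈ T, {p | p.2 ∈ cone p.1 θ α}) := by
          apply measure_mono
          rintro ⟨x, y⟩ -
          by_cases hxy : y = x
          · exact Or.inl hxy
          · obtain ⟨θ, hθ, hy⟩ := hT x y hxy
            exact Or.inr (mem_iUnion₂.mpr ⟨θ, hθ, hy⟩)
      _ ≤ (ν.prod ν) {p | p.2 = p.1} + (ν.prod ν) (⋃ θ ∈ T, {p | p.2 ∈ cone p.1 θ α}) :=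
          measure_union_le _ _
      _ ≤ 0 + ∑ θ ∈ T, (ν.prod ν) {p | p.2 ∈ cone p.1 θ α} :=
          add_le_add (prod_diag ν hν).le (measure_biUnion_finset_le T _)
      _ ≤ 0 + ∑ θ ∈ T, ε * ν univ :=
          add_le_add le_rfl (Finset.sum_le_sum hW)
      _ = T.card * (ε * ν univ) := by
          rw [zero_add, Finset.sum_const, nsmul_eq_mul]
  rw [← mul_assoc] at hall
  exact (ENNReal.mul_le_mul_iff_left h0 (measure_ne_top ν univ)).mp hall

/-- One class of points in the combinatorial argument. -/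
lemma measure_class_le (μ : Measure (EuclideanSpace ℝ (Fin n))) [IsFiniteMeasure μ]
    (hμ : ∀ x, μ {x} = 0)
    {α : ℝ} (T S : Finset (EuclideanSpace ℝ (Fin n)))
    (hT : ∀ x y : EuclideanSpace ℝ (Fin n), y ≠ x → ∃ θ ∈ T, y ∈ cone x θ α)
    {B D : Set (EuclideanSpace ℝ (Fin n))} (hD : MeasurableSet D) (hDB : D ⊆ B) (ε : ℝ≥0∞)
    (h1 : ∀ x ∈ D, ∀ θ ∈ T, θ ∉ S → μ (B ∩ cone x θ α) ≤ ε)
    (h2 : ∀ x ∈ D, ∀ θ ∈ S, μ (B ∩ cone x (-θ) α) ≤ ε) :
    μ D ≤ T.card * ε := by
  have hνu : (μ.restrict D) univ = μ D := Measure.restrict_apply_univ D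
  have hνs : ∀ x, (μ.restrict D) {x} = 0 := fun x => le_antisymm
    ((Measure.restrict_apply_le D {x}).trans (hμ x).le) zero_le
  have hle : ∀ C : Set (EuclideanSpace ℝ (Fin n)), (μ.restrict D) C ≤ μ (B ∩ C) := by
    intro C
    rw [Measure.restrict_apply' hD, inter_comm]
    exact measure_mono (inter_subset_inter_left _ hDB)
  rw [← hνu]
  apply measure_univ_le (μ.restrict D) hνs T hT ε
  intro θ hθ
  rw [hνu]
  have hm : MeasurableSet {p : EuclideanSpace ℝ (Fin n) × EuclideanSpace ℝ (Fin n) |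
    p.2 ∈ cone p.1 θ α} := (isOpen_graph θ α).measurableSet
  by_cases hS : θ ∈ S
  · rw [Measure.prod_apply_symm hm, ← setLIntegral_const]
    apply setLIntegral_mono' hD
    intro y hy
    have e : (fun x => (x, y)) ⁻¹' {p : EuclideanSpace ℝ (Fin n) × EuclideanSpace ℝ (Fin n) |
        p.2 ∈ cone p.1 θ α} = cone y (-θ) α := by
      ext x
      simp only [mem_preimage, mem_ofPred_eq]
      exact (mem_cone_neg (x := x) (y := y)).symm
    rw [e]
    exact (hle _).trans (h2 y hy θ hS)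
  · rw [Measure.prod_apply hm, ← setLIntegral_const]
    apply setLIntegral_mono' hD
    intro x hx
    have e : Prod.mk x ⁻¹' {p : EuclideanSpace ℝ (Fin n) × EuclideanSpace ℝ (Fin n) |
        p.2 ∈ cone p.1 θ α} = cone x θ α := by
      ext y
      simp only [mem_preimage, mem_ofPred_eq]
    rw [e]
    exact (hle _).trans (h1 x hx θ hθ hS)

/-- The combinatorial heart of the proof: points of `B` which are not two-sided in any of the
finitely many directions form a small part of `B`. -/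
lemma measure_bad_le (μ : Measure (EuclideanSpace ℝ (Fin n))) [IsFiniteMeasure μ]
    (hμ : ∀ x, μ {x} = 0)
    {α : ℝ} (T : Finset (EuclideanSpace ℝ (Fin n)))
    (hT : ∀ x y : EuclideanSpace ℝ (Fin n), y ≠ x → ∃ θ ∈ T, y ∈ cone x θ α)
    {B : Set (EuclideanSpace ℝ (Fin n))} (hB : MeasurableSet B) (ε : ℝ≥0∞) :
    μ {x | x ∈ B ∧ ∀ θ ∈ T, μ (B ∩ cone x θ α) ≤ ε ∨ μ (B ∩ cone x (-θ) α) ≤ ε} ≤
      2 ^ T.card * (T.card * ε) := by
  classical
  -- the class of a subset `S` of directions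
  let D : Finset (EuclideanSpace ℝ (Fin n)) → Set (EuclideanSpace ℝ (Fin n)) := fun S =>
    B ∩ (⋂ θ ∈ T \ S, {x | μ (B ∩ cone x θ α) ≤ ε}) ∩ ⋂ θ ∈ S, {x | μ (B ∩ cone x (-θ) α) ≤ ε}
  have hsec : ∀ θ : EuclideanSpace ℝ (Fin n), Measurable fun x => μ (B ∩ cone x θ α) := by
    intro θ
    have h1 := measurable_section (μ.restrict B) θ α
    have h2 : (fun x => (μ.restrict B) (cone x θ α)) = fun x => μ (B ∩ cone x θ α) := by
      funext x
      rw [Measure.restrict_apply' hB, inter_comm]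
    rwa [h2] at h1
  have hDm : ∀ S, MeasurableSet (D S) := by
    intro S
    refine (hB.inter ?_).inter ?_
    · exact Finset.measurableSet_biInter _ fun θ _ => measurableSet_le (hsec θ) measurable_const
    · exact Finset.measurableSet_biInter _ fun θ _ => measurableSet_le (hsec (-θ)) measurable_const
  have hDle : ∀ S, μ (D S) ≤ T.card * ε := by
    intro S
    apply measure_class_le μ hμ T S hT (hDm S) (fun x hx => hx.1.1)
    · intro x hx θ hθ hS
      exact mem_iInter₂.mp hx.1.2 θ (Finset.mem_sdiff.mpr ⟨hθ, hS⟩)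
    · intro x hx θ hθ
      exact mem_iInter₂.mp hx.2 θ hθ
  calc μ {x | x ∈ B ∧ ∀ θ ∈ T, μ (B ∩ cone x θ α) ≤ ε ∨ μ (B ∩ cone x (-θ) α) ≤ ε}
      ≤ μ (⋃ S ∈ T.powerset, D S) := by
        apply measure_mono
        rintro x ⟨hxB, hx⟩
        refine mem_iUnion₂.mpr ⟨T.filter fun θ => μ (B ∩ cone x (-θ) α) ≤ ε,
          Finset.mem_powerset.mpr (Finset.filter_subset _ _), ⟨hxB, ?_⟩, ?_⟩
        · refine mem_iInter₂.mpr fun θ hθ => ?_
          rw [Finset.mem_sdiff, Finset.mem_filter, not_and] at hθ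
          rcases hx θ hθ.1 with h | h
          · exact h
          · exact absurd h (hθ.2 hθ.1)
        · refine mem_iInter₂.mpr fun θ hθ => ?_
          exact (Finset.mem_filter.mp hθ).2
    _ ≤ ∑ S ∈ T.powerset, μ (D S) := measure_biUnion_finset_le _ _
    _ ≤ ∑ S ∈ T.powerset, T.card * ε := Finset.sum_le_sum fun S _ => hDle S
    _ = 2 ^ T.card * (T.card * ε) := by
        rw [Finset.sum_const, Finset.card_powerset, nsmul_eq_mul]
        push_cast
        ring

/-- **Two-sided upper conical density for non-atomic measures.** -/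
theorem result (n : ℕ) (α : ℝ) (hα : 0 < α) (hα1 : α ≤ 1) :
    ∃ c : ℝ, 0 < c ∧ ∀ μ : Measure (EuclideanSpace ℝ (Fin n)), IsFiniteMeasure μ →
      (∀ x, μ {x} = 0) → ∀ᵐ x ∂μ, ∃ θ : EuclideanSpace ℝ (Fin n), ‖θ‖ = 1 ∧
        ENNReal.ofReal c < limsup (fun r : ℝ =>
          min (μ (closedBall x r ∩ cone x θ α)) (μ (closedBall x r ∩ cone x (-θ) α)) /
            μ (closedBall x r)) (𝓝[>] 0) := by
  obtain ⟨T, hT1, hT⟩ := exists_finite_net n hα
  -- constants
  set N : ℝ := 2 ^ T.card * (T.card + 1) with hN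
  have hN0 : 0 < N := by positivity
  set c : ℝ := 1 / (8 * N * 3 ^ (n + 1)) with hc
  have hc0 : 0 < c := by positivity
  refine ⟨c, hc0, fun μ hμf hμ => ?_⟩
  by_contra hcon
  rw [ae_iff] at hcon
  set A := {x | ¬ ∃ θ : EuclideanSpace ℝ (Fin n), ‖θ‖ = 1 ∧
        ENNReal.ofReal c < limsup (fun r : ℝ =>
          min (μ (closedBall x r ∩ cone x θ α)) (μ (closedBall x r ∩ cone x (-θ) α)) /
            μ (closedBall x r)) (𝓝[>] 0)} with hA
  -- the scale-uniform pieces of the bad set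
  let F : ℕ → Set (EuclideanSpace ℝ (Fin n)) := fun k => {x | ∀ r ∈ Ioo (0 : ℝ) (1 / ((k : ℝ) + 1)),
    ∀ θ ∈ T, min (μ (closedBall x r ∩ cone x θ α)) (μ (closedBall x r ∩ cone x (-θ) α)) ≤
      ENNReal.ofReal (2 * c) * μ (closedBall x r)}
  have hAF : A ⊆ ⋃ k, F k := by
    intro x hx
    have hx' : ∀ θ ∈ T, ∀ᶠ r in 𝓝[>] (0 : ℝ),
        min (μ (closedBall x r ∩ cone x θ α)) (μ (closedBall x r ∩ cone x (-θ) α)) ≤
          ENNReal.ofReal (2 * c) * μ (closedBall x r) := by
      intro θ hθ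
      have h1 : limsup (fun r : ℝ =>
          min (μ (closedBall x r ∩ cone x θ α)) (μ (closedBall x r ∩ cone x (-θ) α)) /
            μ (closedBall x r)) (𝓝[>] 0) ≤ ENNReal.ofReal c := by
        by_contra h
        exact hx ⟨θ, hT1 θ hθ, not_le.mp h⟩
      have h2 : ENNReal.ofReal c < ENNReal.ofReal (2 * c) := by
        rw [ENNReal.ofReal_lt_ofReal_iff (by positivity)]
        linarith
      have h3 := eventually_lt_of_limsup_lt (h1.trans_lt h2)
      filter_upwards [h3] with r hr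
      rcases eq_or_ne (μ (closedBall x r)) 0 with h0 | h0
      · have : μ (closedBall x r ∩ cone x θ α) = 0 := measure_mono_null inter_subset_left h0
        rw [this]
        simp
      · exact (ENNReal.div_le_iff h0 (measure_ne_top _ _)).mp hr.le
    have hx'' := (Finset.eventually_all T).mpr hx'
    obtain ⟨δ, hδ, hδ'⟩ := (mem_nhdsGT_iff_exists_Ioo_subset' (zero_lt_one' ℝ)).mp hx''
    rw [mem_Ioi] at hδ
    obtain ⟨k, hk⟩ := exists_nat_gt (1 / δ)
    rw [mem_iUnion]
    refine ⟨k, fun r hr θ hθ => ?_⟩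
    have hrδ : r ∈ Ioo 0 δ := by
      refine ⟨hr.1, hr.2.trans_le ?_⟩
      rw [div_le_iff₀ (by positivity)]
      rw [div_lt_iff₀ hδ] at hk
      nlinarith
    exact hδ' hrδ θ hθ
  obtain ⟨k, hk⟩ : ∃ k, μ (F k) ≠ 0 := by
    by_contra h
    push Not at h
    exact hcon (measure_mono_null hAF (measure_iUnion_null h))
  -- a density point with doubling scales
  have hne : (ae (μ.restrict (F k))).NeBot := by
    rw [ae_neBot]
    intro h
    apply hk
    rw [← Measure.restrict_apply_univ, h]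
    rfl
  obtain ⟨z, hz1, hz2⟩ := ((Besicovitch.ae_tendsto_measure_inter_div μ (F k)).and
    (ae_restrict_of_ae (Q76.DoublingScales.ae_frequently_doubling μ))).exists
  have hδ0 : (0 : ℝ) < 1 / ((k : ℝ) + 1) / 2 := by positivity
  have hev := (hz1.eventually (lt_mem_nhds (show (1 / 2 : ℝ≥0∞) < 1 by
    rw [one_div]; exact ENNReal.one_half_lt_one))).and (Ioo_mem_nhdsGT hδ0)
  obtain ⟨r, hr1, hr2, hr3⟩ := (hz2.and_eventually hev).exists
  set B := closedBall z r with hB
  have hBm : MeasurableSet B := measurableSet_closedBall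
  have hB0 : μ B ≠ 0 := by
    intro h
    rw [h, measure_mono_null inter_subset_right h] at hr2
    simp at hr2
  have hBt : μ B ≠ ⊤ := measure_ne_top _ _
  set ε := ENNReal.ofReal (1 / (4 * N)) * μ B with hε
  have hbad := measure_bad_le μ hμ T hT hBm ε
  -- every point of `F k ∩ B` is bad in `B`
  have hsub : F k ∩ B ⊆ {x | x ∈ B ∧ ∀ θ ∈ T, μ (B ∩ cone x θ α) ≤ ε ∨
      μ (B ∩ cone x (-θ) α) ≤ ε} := by
    rintro x ⟨hxF, hxB⟩
    refine ⟨hxB, fun θ hθ => ?_⟩
    have h2r : 2 * r ∈ Ioo (0 : ℝ) (1 / ((k : ℝ) + 1)) := by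
      have := hr3.1
      have := hr3.2
      constructor <;> linarith
    have hmin := hxF (2 * r) h2r θ hθ
    have hxz : dist x z ≤ r := hxB
    have hs1 : B ⊆ closedBall x (2 * r) := by
      apply closedBall_subset_closedBall'
      rw [dist_comm]; linarith
    have hs2 : closedBall x (2 * r) ⊆ closedBall z (3 * r) := by
      apply closedBall_subset_closedBall'
      linarith
    have hle : ENNReal.ofReal (2 * c) * μ (closedBall x (2 * r)) ≤ ε := by
      calc ENNReal.ofReal (2 * c) * μ (closedBall x (2 * r))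
          ≤ ENNReal.ofReal (2 * c) * (3 ^ (n + 1) * μ B) := by
            gcongr
            exact (measure_mono hs2).trans hr1
        _ = ENNReal.ofReal (1 / (4 * N)) * μ B := by
            rw [← mul_assoc]
            congr 1
            have e3 : (3 : ℝ≥0∞) ^ (n + 1) = ENNReal.ofReal (3 ^ (n + 1)) := by
              rw [ENNReal.ofReal_pow (by norm_num)]
              norm_num
            rw [e3, ← ENNReal.ofReal_mul (by positivity), hc]
            congr 1
            field_simp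
            norm_num
    rcases min_le_iff.mp (hmin.trans hle) with h | h
    · exact Or.inl ((measure_mono (inter_subset_inter_left _ hs1)).trans h)
    · exact Or.inr ((measure_mono (inter_subset_inter_left _ hs1)).trans h)
  have h5 : μ (F k ∩ B) ≤ 1 / 4 * μ B := by
    refine (measure_mono hsub).trans (hbad.trans ?_)
    rw [hε, ← mul_assoc, ← mul_assoc]
    gcongr
    have e1 : (2 : ℝ≥0∞) ^ T.card = ENNReal.ofReal (2 ^ T.card) := by
      rw [ENNReal.ofReal_pow (by norm_num)]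
      norm_num
    have e2 : (T.card : ℝ≥0∞) = ENNReal.ofReal T.card := (ENNReal.ofReal_natCast _).symm
    have e3 : (1 / 4 : ℝ≥0∞) = ENNReal.ofReal (1 / 4) := by
      rw [ENNReal.ofReal_div_of_pos (by norm_num)]
      norm_num
    rw [e1, e2, e3, ← ENNReal.ofReal_mul (by positivity), ← ENNReal.ofReal_mul (by positivity)]
    apply ENNReal.ofReal_le_ofReal
    rw [mul_one_div, div_le_div_iff₀ (by positivity) (by norm_num), hN]
    have : (0 : ℝ) < 2 ^ T.card := by positivity
    nlinarith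
  have h6 : 1 / 2 * μ B < μ (F k ∩ B) := by
    rwa [ENNReal.lt_div_iff_mul_lt (Or.inl hB0) (Or.inl hBt)] at hr2
  have h7 : (1 / 4 : ℝ≥0∞) * μ B ≤ 1 / 2 * μ B := by
    gcongr
    norm_num
  exact absurd (h6.trans_le (h5.trans h7)) (lt_irrefl _)

end Pool.Agent.Results.MP_acc68d_an.TwoSidedConicalDensity
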